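import Pool.Agent.H965.Opn2.Main

/-!
The choice of the parameters: the inequality for `log N`.
-/

set_option autoImplicit false
set_option linter.unusedSectionVars false

namespace Pool.Agent.H965.Opn2

open Finset Pool.Agent.H612.OPN Pool.Agent.W132.OPN Pool.Agent.H612.OPNm

/-- **The main inequality.** -/
theorem main (ε : ℝ) (hε : 0 < ε) : ∃ c C : ℝ, 0 < c ∧ 0 < C ∧ ∀ N : ℕ, Odd N → N.Perfect →
    ∀ R : Finset ℕ, (R.card : ℝ) ≤ c * √(Real.log (Real.log N)) → ∀ y : ℝ, 1 ≤ y →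
    ∀ H' : ℝ, 0 ≤ H' → ((∀ p ∈ R, Real.log (p : ℝ) ≤ y * Real.log N ^ ε) ∨
      (∀ p ∈ R, Real.log (p : ℝ) ≤ H' ∨ y * Real.log N ^ ε ≤ Real.log (p : ℝ))) →
      Real.log N ≤ C * Real.log N ^ (2 * ε) *
        (y * √y + y * H' + Real.log (DD N ⌊y⌋₊ R)) := by
  set δ : ℝ := min (ε / 8) (1 / 2) with hδdef
  have hδ : 0 < δ := by rw [hδdef]; exact lt_min (by linarith) (by norm_num)
  have hδ1 : δ ≤ 1 / 2 := min_le_right _ _
  have hδε : 8 * δ ≤ ε := by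
    have : δ ≤ ε / 8 := min_le_left _ _
    linarith
  set J : ℕ := ⌈8 / δ⌉₊ with hJ
  have hJ8 : 8 / δ ≤ J := Nat.le_ceil _
  obtain ⟨a, b₀, E⟩ := exists_est δ hδ
  obtain ⟨Ca, hCa, hasym⟩ := asym δ hδ
  have hb₀ := E.b1
  set c : ℝ := δ / (8 * (J + 1)) with hc
  have hc0 : 0 < c := by rw [hc]; positivity
  set u₁ : ℝ := 1000 / δ + 8 * (J + 1) / δ with hu₁
  have hu₁a : 1000 / δ ≤ u₁ := by
    rw [hu₁]
    have : 0 ≤ 8 * ((J : ℝ) + 1) / δ := by positivity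
    linarith
  have hu₁b : 8 * (J + 1) / δ ≤ u₁ := by
    rw [hu₁]
    have : 0 ≤ 1000 / δ := by positivity
    linarith
  have hu₁1 : 1 ≤ u₁ := by
    refine le_trans ?_ hu₁a
    rw [le_div_iff₀ hδ]
    linarith
  set L₀ : ℝ := Real.exp (u₁ ^ 4) + (2 * (1 + b₀)) ^ (2 / ε) with hL₀
  have hL₀a : Real.exp (u₁ ^ 4) ≤ L₀ := by
    rw [hL₀]
    have : 0 ≤ (2 * (1 + b₀)) ^ (2 / ε) := by positivity
    linarith
  have hL₀b : (2 * (1 + b₀)) ^ (2 / ε) ≤ L₀ := by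
    rw [hL₀]
    have := Real.exp_pos (u₁ ^ 4)
    linarith
  have hL₀1 : 1 ≤ L₀ := (Real.one_le_exp (by positivity)).trans hL₀a
  set C₁ : ℝ := 4 + Ca * (3 + 24 * (1 + b₀) ^ 2) with hC₁
  have hC₁0 : 4 ≤ C₁ := by
    rw [hC₁]
    have : 0 ≤ Ca * (3 + 24 * (1 + b₀) ^ 2) := by positivity
    linarith
  refine ⟨c, 2 * C₁ + L₀, hc0, by positivity, ?_⟩
  intro N hodd hperf R hR y hy H' hH' hRcond
  have H := opn_of_perfect hodd hperf
  have hL1 := one_lt_log H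
  set L := Real.log N with hL
  have hL0 : 0 < L := by linarith
  have hL2ε : 1 ≤ L ^ (2 * ε) := Real.one_le_rpow hL1.le (by linarith)
  have hLε : 1 ≤ L ^ ε := Real.one_le_rpow hL1.le hε.le
  set D := Real.log (DD N ⌊y⌋₊ R) with hD
  have hD0 : 0 ≤ D := Real.log_natCast_nonneg _
  have hsy : 1 ≤ √y := Real.one_le_sqrt.2 hy
  have hyy : y ≤ y * √y := le_mul_of_one_le_right (by linarith) hsy
  have hyH : 0 ≤ y * H' := by positivity
  have htriv : ∀ A X : ℝ, 0 ≤ A → A ≤ 2 * C₁ + L₀ → 0 ≤ X → X ≤ y * √y →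
      A * X ≤ (2 * C₁ + L₀) * L ^ (2 * ε) * (y * √y + y * H' + D) := by
    intro A X hA0 hA hX0 hX
    have h1 : A ≤ (2 * C₁ + L₀) * L ^ (2 * ε) := by
      calc A ≤ 2 * C₁ + L₀ := hA
        _ = (2 * C₁ + L₀) * 1 := (mul_one _).symm
        _ ≤ _ := mul_le_mul_of_nonneg_left hL2ε (by linarith)
    exact mul_le_mul h1 (by linarith) hX0 (hA0.trans h1)
  by_cases hbig : L₀ ≤ L
  swap
  · push Not at hbig
    have := htriv L₀ 1 (by linarith) (by linarith) (by norm_num) (by linarith)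
    linarith
  by_cases hyL : (⌊y⌋₊ : ℝ) ≤ L
  swap
  · push Not at hyL
    have h1 : (⌊y⌋₊ : ℝ) ≤ y := Nat.floor_le (by linarith)
    have := htriv 1 y (by norm_num) (by linarith) (by linarith) hyy
    linarith
  -- the parameters
  set u : ℝ := Real.log L ^ ((1 : ℝ) / 4) with hu
  have hlogL : u₁ ^ 4 ≤ Real.log L := by
    rw [Real.le_log_iff_exp_le hL0]; exact hL₀a.trans hbig
  have hlogL0 : 0 ≤ Real.log L := le_trans (by positivity) hlogL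
  have hu4 : u ^ 4 = Real.log L := by
    rw [hu, ← Real.rpow_natCast, ← Real.rpow_mul hlogL0]
    norm_num
  have hu0 : 0 ≤ u := Real.rpow_nonneg hlogL0 _
  have huu : u₁ ≤ u := by
    have : u₁ ^ 4 ≤ u ^ 4 := by rw [hu4]; exact hlogL
    exact (pow_le_pow_iff_left₀ (by linarith) hu0 (by norm_num)).1 this
  have hu1 : 1 ≤ u := by linarith
  have hsqrt : √(Real.log L) = u ^ 2 := by
    rw [← hu4, show u ^ 4 = (u ^ 2) ^ 2 by ring]
    exact Real.sqrt_sq (by positivity)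
  rw [hsqrt] at hR
  have hexpu : L = Real.exp (u ^ 4) := by rw [hu4, Real.exp_log hL0]
  have hLδ : L ^ δ = Real.exp (δ * u ^ 4) := by
    rw [Real.rpow_def_of_pos hL0, ← hu4, mul_comm]
  have hset : Setting N R J δ u := by
    refine ⟨H, hexpu, hδ, hδ1, hJ8, by linarith, ?_⟩
    push_cast
    have hJ1 : (0 : ℝ) < (J : ℝ) + 1 := by positivity
    have h1 : (R.card : ℝ) * (J + 1) ≤ δ / 8 * u ^ 2 := by
      calc (R.card : ℝ) * (J + 1) ≤ (c * u ^ 2) * (J + 1) := by gcongr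
        _ = δ / 8 * u ^ 2 := by rw [hc]; field_simp
    have h2 : (J : ℝ) + 1 ≤ δ / 8 * u ^ 2 := by
      have h3 : 8 * ((J : ℝ) + 1) / δ ≤ u ^ 2 := by
        have : u ≤ u ^ 2 := le_self_pow₀ hu1 (by norm_num)
        linarith
      rw [div_le_iff₀ hδ] at h3
      linarith
    linarith
  have hY1 : 1 ≤ ⌊y⌋₊ := Nat.one_le_iff_ne_zero.2 (Nat.floor_pos.2 hy).ne'
  have hsz : Sizes N J ⌊y⌋₊ R δ u b₀ := ⟨hset, hY1, hyL, hb₀, fun q hq => by
    have := E.tau N H q hq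
    rwa [← hL, hLδ] at this⟩
  have hYy : (⌊y⌋₊ : ℝ) ≤ y := Nat.floor_le (by linarith)
  have hyY : y ≤ 2 * (⌊y⌋₊ : ℝ) := by
    have h1 := (Nat.lt_floor_add_one y).le
    have h2 : (1:ℝ) ≤ (⌊y⌋₊ : ℝ) := by exact_mod_cast hY1
    linarith
  have hW0 : 0 < Real.exp (δ * u ^ 4) := Real.exp_pos _
  have hW4 : 2 * (1 + b₀) * Real.exp (δ * u ^ 4) ^ 4 ≤ L ^ ε := by
    have h1 : Real.exp (δ * u ^ 4) ^ 4 ≤ L ^ (ε / 2) := by
      rw [← hLδ, ← Real.rpow_natCast, ← Real.rpow_mul hL0.le]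
      apply Real.rpow_le_rpow_of_exponent_le hL1.le
      push_cast
      linarith
    have h2 : 2 * (1 + b₀) ≤ L ^ (ε / 2) := by
      have h3 := Real.rpow_le_rpow (by positivity) (hL₀b.trans hbig) (show 0 ≤ ε / 2 by linarith)
      rw [← Real.rpow_mul (by positivity)] at h3
      have h4 : 2 / ε * (ε / 2) = 1 := by field_simp
      rwa [h4, Real.rpow_one] at h3
    calc 2 * (1 + b₀) * Real.exp (δ * u ^ 4) ^ 4 ≤ L ^ (ε / 2) * L ^ (ε / 2) :=
          mul_le_mul h2 h1 (by positivity) (by positivity)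
      _ = L ^ ε := by rw [← Real.rpow_add hL0]; congr 1; ring
  have hfin := hsz.main hCa hasym (Z := 2 * L ^ ε) (H' := H') (by linarith) hH' (by
    rcases hRcond with h1 | h1
    · left
      intro p hp
      refine (h1 p hp).trans ?_
      calc y * L ^ ε ≤ (2 * (⌊y⌋₊ : ℝ)) * L ^ ε := mul_le_mul_of_nonneg_right hyY (by linarith)
        _ = _ := by ring
    · right
      intro p hp
      rcases h1 p hp with h2 | h2
      · exact Or.inl h2
      · right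
        refine le_trans ?_ h2
        calc 2 * ((1 + b₀) * Real.exp (δ * u ^ 4) ^ 4 * (⌊y⌋₊ : ℝ)) =
              (⌊y⌋₊ : ℝ) * (2 * (1 + b₀) * Real.exp (δ * u ^ 4) ^ 4) := by ring
          _ ≤ y * L ^ ε := mul_le_mul hYy hW4 (by positivity) (by linarith))
  have h1 : Real.exp (δ * u ^ 4) ^ 8 * (2 * L ^ ε) ≤ 2 * L ^ (2 * ε) := by
    have h2 : Real.exp (δ * u ^ 4) ^ 8 ≤ L ^ ε := by
      rw [← hLδ, ← Real.rpow_natCast, ← Real.rpow_mul hL0.le]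
      apply Real.rpow_le_rpow_of_exponent_le hL1.le
      push_cast
      linarith
    calc Real.exp (δ * u ^ 4) ^ 8 * (2 * L ^ ε) ≤ L ^ ε * (2 * L ^ ε) :=
          mul_le_mul_of_nonneg_right h2 (by positivity)
      _ = 2 * (L ^ ε * L ^ ε) := by ring
      _ = 2 * L ^ (2 * ε) := by rw [← Real.rpow_add hL0]; congr 2; ring
  have h2 : (⌊y⌋₊ : ℝ) * √(⌊y⌋₊ : ℝ) + (⌊y⌋₊ : ℝ) * H' + D ≤ y * √y + y * H' + D := by
    have e1 : (⌊y⌋₊ : ℝ) * √(⌊y⌋₊ : ℝ) ≤ y * √y :=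
      mul_le_mul hYy (Real.sqrt_le_sqrt hYy) (Real.sqrt_nonneg _) (by linarith)
    have e2 : (⌊y⌋₊ : ℝ) * H' ≤ y * H' := mul_le_mul_of_nonneg_right hYy hH'
    linarith
  have h3 : 0 ≤ (⌊y⌋₊ : ℝ) * √(⌊y⌋₊ : ℝ) + (⌊y⌋₊ : ℝ) * H' + D := by positivity
  calc L ≤ C₁ * (Real.exp (δ * u ^ 4) ^ 8 * (2 * L ^ ε) *
        ((⌊y⌋₊ : ℝ) * √(⌊y⌋₊ : ℝ) + (⌊y⌋₊ : ℝ) * H' + D)) := hfin
    _ ≤ C₁ * (2 * L ^ (2 * ε) * (y * √y + y * H' + D)) := by
        apply mul_le_mul_of_nonneg_left _ (by linarith)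
        exact mul_le_mul h1 h2 h3 (by positivity)
    _ = 2 * C₁ * L ^ (2 * ε) * (y * √y + y * H' + D) := by ring
    _ ≤ _ := by
        apply mul_le_mul_of_nonneg_right _ (by positivity)
        apply mul_le_mul_of_nonneg_right _ (by positivity)
        linarith

end Pool.Agent.H965.Opn2
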