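import Pool.Agent.H965.Opn2.Flow

/-!
The main inequality in the parameters `W`, `Y`, `Z`, `H'`.
-/

set_option autoImplicit false
set_option linter.unusedSectionVars false

namespace Pool.Agent.H965.Opn2

open Finset Pool.Agent.H612.OPN Pool.Agent.W132.OPN Pool.Agent.H612.OPNm

namespace Sizes

variable {N J Y : ℕ} {R : Finset ℕ} {δ u b₀ : ℝ}

/-- **The main inequality.** -/
theorem main (h : Sizes N J Y R δ u b₀) {C : ℝ} (hC : 0 ≤ C)
    (hasym : ∀ (K : Finset ℕ) (n s : ℕ → ℕ) (δ' : ℕ → ℝ)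
      (y l : ℕ), 1 ≤ y → Data K n s δ' y l →
      (l:ℝ) * ∑ q ∈ K, (n q : ℝ) ≤
        C * (Real.exp (δ * l) * (K.card * Real.sqrt y) + (l:ℝ) ^ 15 * ∑ r ∈ K, δ' r))
    {Z H' : ℝ} (hZ : 1 ≤ Z) (hH0 : 0 ≤ H')
    (hR : (∀ p ∈ R, Real.log p ≤ Y * Z) ∨ (∀ p ∈ R, Real.log p ≤ H' ∨
      2 * ((1 + b₀) * Real.exp (δ * u ^ 4) ^ 4 * Y) ≤ Real.log p)) :
    Real.log N ≤ (4 + C * (3 + 24 * (1 + b₀) ^ 2)) * (Real.exp (δ * u ^ 4) ^ 8 * Z *
      (Y * Real.sqrt Y + Y * H' + Real.log (DD N Y R))) := by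
  have hb₀ := h.hb₀
  have hYr := h.hYr
  have h1 := h.descent
  have h2 := h.comp_sum hC hasym
  set W := Real.exp (δ * u ^ 4) with hW
  have hW1 : 1 ≤ W := h.hW1
  have hW0 : 0 < W := by linarith
  set D := Real.log (DD N Y R) with hD
  have hD0 : 0 ≤ D := Real.log_natCast_nonneg _
  have hsY : 1 ≤ Real.sqrt Y := Real.one_le_sqrt.2 hYr
  have hYs : 1 ≤ Y * Real.sqrt Y := one_le_mul_of_one_le_of_one_le hYr hsY
  have hYH : 0 ≤ Y * H' := by positivity
  set T := Y * Real.sqrt Y + Y * H' + D with hT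
  have hT1 : 1 ≤ T := by linarith
  have hWZ : ∀ k : ℕ, k ≤ 6 → W ^ k ≤ W ^ 6 * Z := by
    intro k hk
    calc W ^ k = W ^ k * 1 := (mul_one _).symm
      _ ≤ W ^ 6 * Z := mul_le_mul (pow_le_pow_right₀ hW1 hk) hZ (by norm_num) (by positivity)
  have hin : inflow N Y R δ u ≤ 24 * (1 + b₀) ^ 2 * (W ^ 6 * Z * T) := by
    rcases hR with hR | hR
    · refine (h.inflow_case1 hZ hR).trans ?_
      rw [← hW]
      have e1 : (4 + 3 * b₀) * (1 + b₀) ≤ 24 * (1 + b₀) ^ 2 := by nlinarith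
      have e2 : W ^ 4 * Z * (Y * Real.sqrt Y + D) ≤ W ^ 6 * Z * T := by
        apply mul_le_mul _ (by linarith) (by positivity) (by positivity)
        exact mul_le_mul_of_nonneg_right (pow_le_pow_right₀ hW1 (by norm_num)) (by linarith)
      exact mul_le_mul e1 e2 (by positivity) (by positivity)
    · refine (h.inflow_case2 hH0 hR).trans ?_
      rw [← hW]
      have e1 : 24 * (1 + b₀) ≤ 24 * (1 + b₀) ^ 2 := by nlinarith
      have e2 : W ^ 6 * (Y * (1 + H') + D) ≤ W ^ 6 * Z * T := by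
        have e3 : Y * (1 + H') + D ≤ T := by
          have : (Y:ℝ) * 1 ≤ Y * Real.sqrt Y := mul_le_mul_of_nonneg_left hsY (by linarith)
          rw [hT, mul_add]
          linarith
        apply mul_le_mul (hWZ 6 le_rfl) e3 (by positivity) (by positivity)
      exact mul_le_mul e1 e2 (by positivity) (by positivity)
  have hin0 : 0 ≤ inflow N Y R δ u :=
    sum_nonneg (fun r _ => sum_nonneg (fun q _ => xx_nonneg _ _ _))
  have h3 : ∑ q ∈ KK N Y R δ u, xq N q ≤ C * ((3 + 24 * (1 + b₀) ^ 2) * (W ^ 7 * Z * T)) := by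
    refine h2.trans (mul_le_mul_of_nonneg_left ?_ hC)
    have e1 : 3 * W * (Y * Real.sqrt Y) ≤ 3 * (W ^ 7 * Z * T) := by
      have e2 : W * (Y * Real.sqrt Y) ≤ W ^ 7 * Z * T := by
        apply mul_le_mul _ (by linarith) (by positivity) (by positivity)
        calc W = W ^ 1 * 1 := by ring
          _ ≤ W ^ 7 * Z := mul_le_mul (pow_le_pow_right₀ hW1 (by norm_num)) hZ (by norm_num)
              (by positivity)
      linarith
    have e3 : W * inflow N Y R δ u ≤ 24 * (1 + b₀) ^ 2 * (W ^ 7 * Z * T) := by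
      calc W * inflow N Y R δ u ≤ W * (24 * (1 + b₀) ^ 2 * (W ^ 6 * Z * T)) :=
            mul_le_mul_of_nonneg_left hin hW0.le
        _ = _ := by ring
    linarith
  have h4 : W ≤ W ^ 7 * Z * T := by
    calc W = W ^ 1 * 1 * 1 := by ring
      _ ≤ W ^ 7 * Z * T := by
        apply mul_le_mul _ hT1 (by norm_num) (by positivity)
        exact mul_le_mul (pow_le_pow_right₀ hW1 (by norm_num)) hZ (by norm_num) (by positivity)
  have h5 : 2 * D ≤ 2 * (W ^ 7 * Z * T) := by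
    have : D ≤ W ^ 7 * Z * T := by
      calc D = 1 * D := (one_mul _).symm
        _ ≤ W ^ 7 * Z * T := by
          apply mul_le_mul _ (by linarith) hD0 (by positivity)
          exact one_le_mul_of_one_le_of_one_le (one_le_pow₀ hW1) hZ
    linarith
  have hX0 : 0 ≤ W ^ 7 * Z * T := by positivity
  calc Real.log N ≤ W * (W + ∑ q ∈ KK N Y R δ u, xq N q + 2 * D) := h1
    _ ≤ W * ((4 + C * (3 + 24 * (1 + b₀) ^ 2)) * (W ^ 7 * Z * T)) := by
        apply mul_le_mul_of_nonneg_left _ hW0.le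
        have : (4 + C * (3 + 24 * (1 + b₀) ^ 2)) * (W ^ 7 * Z * T) =
          4 * (W ^ 7 * Z * T) + C * ((3 + 24 * (1 + b₀) ^ 2) * (W ^ 7 * Z * T)) := by ring
        rw [this]
        linarith
    _ = _ := by ring

end Sizes

end Pool.Agent.H965.Opn2
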